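import Pool.Agent.KS6_57.XI.Final

/-!
# The zeros of `Ξ_λ`, `λ < 0`: a uniform law with the error term `O(T √(log T))`

For every `λ < 0` the number of zeros of `Ξ_λ` in `|Re z| ≤ T`, `|Im z| ≤ y` is
`y T / (π |λ|) + O(T √(log T))`, uniformly for `0 ≤ y ≤ |λ| log T`. In particular only
`O(T √(log T))` zeros with `|z| ≤ T` are real, and the proportion of the real zeros in the sense of
Ki and Kim is `O(1 / √(log T))`.
-/

set_option autoImplicit false

namespace Pool.Agent.Results.MP_023270_nt.SharpLaw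

open Filter Topology MeasureTheory

/-- The kernel `Φ(t) = 2 ∑_{n ≥ 1} (2π²n⁴e^{9t/2} - 3πn²e^{5t/2}) e^{-πn²e^{2t}}`. -/
noncomputable def Phi (t : ℝ) : ℝ :=
  2 * ∑' n : ℕ+, (2 * Real.pi ^ 2 * (n : ℝ) ^ 4 * Real.exp (9 * t / 2) -
    3 * Real.pi * (n : ℝ) ^ 2 * Real.exp (5 * t / 2)) *
      Real.exp (-(Real.pi * (n : ℝ) ^ 2 * Real.exp (2 * t)))

/-- The entire function `Ξ_λ(z) = ∫_{-∞}^{∞} Φ(t) e^{λt²} e^{izt} dt`. -/
noncomputable def Xi (lam : ℝ) (z : ℂ) : ℂ :=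
  ∫ t : ℝ, ((Phi t : ℝ) : ℂ) * Complex.exp ((lam : ℂ) * (t : ℂ) ^ 2) *
    Complex.exp (Complex.I * z * (t : ℂ))

/-- The number of zeros of `f` in `S`, counted with multiplicity (an element of `[0, ∞]`):
the sum over the points of `S` of the order of vanishing of `f`. -/
noncomputable def zeroCount (f : ℂ → ℂ) (S : Set ℂ) : ENNReal :=
  ∑' z : S, ((analyticOrderAt f (z : ℂ) : ℕ∞) : ENNReal)

lemma Phi_eq (t : ℝ) : Phi t = Pool.Agent.Helper242.KK.Ph t := by
  unfold Phi Pool.Agent.Helper242.KK.Ph Pool.Agent.Helper242.RK.Phi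
  congr 1
  rw [tsum_pnat_eq_tsum_succ (f := fun n : ℕ => (2 * Real.pi ^ 2 * (n : ℝ) ^ 4 *
    Real.exp (9 * t / 2) - 3 * Real.pi * (n : ℝ) ^ 2 * Real.exp (5 * t / 2)) *
      Real.exp (-(Real.pi * (n : ℝ) ^ 2 * Real.exp (2 * t))))]
  refine tsum_congr fun n => ?_
  push_cast
  rw [show 9 * (t / 2) = 9 * t / 2 by ring, show 5 * (t / 2) = 5 * t / 2 by ring,
    show 4 * (t / 2) = 2 * t by ring]
  ring_nf

lemma Xi_eq (lam : ℝ) : Xi lam = Pool.Agent.Helper242.KK.XiM (-lam) := by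
  funext z
  unfold Xi Pool.Agent.Helper242.KK.XiM Pool.Agent.Helper242.KK.FT Pool.Agent.Helper242.KK.wk
  refine integral_congr_ae (Eventually.of_forall fun t => ?_)
  simp only [Phi_eq]
  push_cast
  rw [neg_neg]

lemma zeroCount_eq (f : ℂ → ℂ) (S : Set ℂ) :
    zeroCount f S = Pool.Agent.Helper242.KK.zc f S := rfl

/-- **Main theorem.** Let `λ < 0`. There are constants `C` and `T₀` such that for all `T ≥ T₀`:

* for all `0 ≤ y ≤ |λ| log T` the number of zeros of `Ξ_λ` with `|Re z| ≤ T` and `|Im z| ≤ y`,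
  counted with multiplicity, is finite and differs from `y T / (π |λ|)` by at most
  `C T √(log T)`;
* the number of real zeros with `|z| ≤ T`, divided by the number of zeros with `|Re z| ≤ T` (the
  proportion of the problem), is at most `C / √(log T)`.

In particular this proportion tends to `0`. -/
theorem result (lam : ℝ) (hlam : lam < 0) :
    (∃ C T₀ : ℝ, 0 < C ∧ 3 ≤ T₀ ∧ ∀ T : ℝ, T₀ ≤ T →
      (∀ y : ℝ, 0 ≤ y → y ≤ |lam| * Real.log T →
        zeroCount (Xi lam) {z | |z.re| ≤ T ∧ |z.im| ≤ y} ≠ ⊤ ∧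
        |(zeroCount (Xi lam) {z | |z.re| ≤ T ∧ |z.im| ≤ y}).toReal - y * T / (Real.pi * |lam|)| ≤
          C * T * √(Real.log T)) ∧
      zeroCount (Xi lam) {z | z.im = 0 ∧ ‖z‖ ≤ T} / zeroCount (Xi lam) {z | |z.re| ≤ T} ≤
        ENNReal.ofReal (C / √(Real.log T))) ∧
    Tendsto (fun T : ℝ => zeroCount (Xi lam) {z | z.im = 0 ∧ ‖z‖ ≤ T} /
      zeroCount (Xi lam) {z | |z.re| ≤ T}) atTop (𝓝 0) := by
  have hμ : 0 < -lam := by linarith
  have habs : |lam| = -lam := abs_of_neg hlam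
  rw [Xi_eq, habs]
  exact Pool.Agent.KS6_57.XI.final_law hμ

end Pool.Agent.Results.MP_023270_nt.SharpLaw
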